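import Pool.Agent.H655.GE.Meas

/-! Approximate isomorphism of trees with real labels. -/

namespace Pool.Agent.H655.TR

open Set Pool.Agent.H655.UR

/-- The labellings of the tree `ℕ^{<ω}` of finite sequences by reals of the unit interval. The
children of a node `s` are the `n :: s`. -/
abbrev Lab : Type := List ℕ → Icc (0 : ℝ) 1

/-- `π` is an automorphism of the tree of finite sequences. -/
def TreeAut (π : Equiv.Perm (List ℕ)) : Prop :=
  ∀ s, (π s).length = s.length ∧ (π s).tail = π s.tail

/-- Approximate isomorphism of labelled trees. -/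
def Apx (x y : Lab) : Prop :=
  ∀ ε : ℝ, 0 < ε → ∃ π, TreeAut π ∧ ∀ s, |(x s : ℝ) - y (π s)| ≤ ε

end Pool.Agent.H655.TR
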