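import Pool.Agent.H655.TR.Defs

/-! From metrics to labelled trees. -/

namespace Pool.Agent.H655.TR

open Set Pool.Agent.H655.UR
open Pool.Agent.H655.GE (Rel Cor Lb' vl' vl'_mem vl'_meas lab' lab'_surj gh_zero)
open scoped ENNReal

/-- The label shown at level `k`. -/
noncomputable def lv (k : ℕ) : Lb' := lab' (Nat.unpair k).1

theorem lv_inf (l : Lb') (n : ℕ) : ∃ k, n ≤ k ∧ lv k = l := by
  obtain ⟨m, hm⟩ := lab'_surj l
  refine ⟨Nat.pair m n, Nat.right_le_pair m n, ?_⟩
  unfold lv
  rw [Nat.unpair_pair, hm]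

/-- The tuple of a node, from the root. -/
def tu (s : List ℕ) : List ℕ := s.reverse.map fun n => (Nat.unpair n).1

/-- The labelled tree of a metric. -/
noncomputable def tr (f : Met) : Lab := fun s => ⟨vl' f (lv s.length) (tu s), vl'_mem _ _ _⟩

theorem tr_meas : Measurable tr := by
  refine measurable_pi_lambda _ fun s => ?_
  exact (vl'_meas (borel Met) le_rfl _ _).subtype_mk

theorem tree_symm {π : Equiv.Perm (List ℕ)} (h : TreeAut π) : TreeAut π.symm := by
  intro s
  have h1 := h (π.symm s)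
  rw [Equiv.apply_symm_apply] at h1
  refine ⟨h1.1.symm, ?_⟩
  rw [h1.2, Equiv.symm_apply_apply]

theorem tree_cons {π : Equiv.Perm (List ℕ)} (h : TreeAut π) (n : ℕ) (s : List ℕ) :
    ∃ m, π (n :: s) = m :: π s := by
  have h1 := h (n :: s)
  simp only [List.length_cons, List.tail_cons] at h1
  rcases hπ : π (n :: s) with _ | ⟨m, t⟩
  · rw [hπ] at h1
    simp at h1
  · rw [hπ] at h1
    simp only [List.tail_cons] at h1
    exact ⟨m, by rw [h1.2]⟩

theorem tr_fwd {f g : Met} (h : rhoGH f g = 0) : Apx (tr f) (tr g) := by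
  intro ε hε
  obtain ⟨σ, hσ⟩ := perm_of_gh (f := f) (g := g) (δ := ε / 2) (by
    rw [h]
    exact ENNReal.ofReal_pos.2 (by linarith))
  have hσ' : ∀ a b : II, |f.1 a.1 b.1 - g.1 (σ a).1 (σ b).1| ≤ ε := fun a b =>
    (hσ a b).trans (by linarith)
  let τ : Equiv.Perm ℕ := (Nat.pairEquiv.symm.trans σ).trans Nat.pairEquiv
  have hτ : ∀ n, (Nat.unpair (τ n)) = σ (Nat.unpair n) := fun n => by
    show Nat.pairEquiv.symm (Nat.pairEquiv (σ (Nat.pairEquiv.symm n))) = _
    rw [Equiv.symm_apply_apply]
    rfl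
  refine ⟨Equiv.listEquivOfEquiv τ, ?_, ?_⟩
  · intro s
    refine ⟨?_, ?_⟩
    · show (List.map τ s).length = s.length
      simp
    · show (List.map τ s).tail = List.map τ s.tail
      simp
  · intro s
    show |vl' f (lv s.length) (tu s) - vl' g (lv (List.map τ s).length) (tu (List.map τ s))| ≤ ε
    rw [List.length_map]
    have hl : (tu (List.map τ s)).length = (tu s).length := by simp [tu]
    rcases lv s.length with c | n
    · simp only [vl', hl]
      split_ifs with hc
      · refine (kp_lip _ _).trans ?_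
        refine (abs_abs_sub_abs_le_abs_sub _ _).trans ?_
        have e : ∀ i, i < (tu s).length → ∃ a : II, (tu s).getD i 0 = a.1 ∧
            (tu (List.map τ s)).getD i 0 = (σ a).1 := by
          intro i hi
          have hi' : i < s.reverse.length := by simpa [tu] using hi
          refine ⟨Nat.unpair (s.reverse[i]), ?_, ?_⟩
          · unfold tu
            rw [List.getD_eq_getElem _ _ (by simpa using hi'), List.getElem_map]
          · unfold tu
            rw [List.getD_eq_getElem _ _ (by simpa using hi'), List.getElem_map, ← hτ]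
            congr 3
            simp [List.getElem_reverse]
        obtain ⟨a, ha, ha'⟩ := e c.1 hc.1
        obtain ⟨b, hb, hb'⟩ := e c.2.1 hc.2
        rw [ha, hb, ha', hb']
        have := hσ' a b
        have e2 : f.1 a.1 b.1 - (c.2.2 : ℝ) - (g.1 (σ a).1 (σ b).1 - (c.2.2 : ℝ)) =
          f.1 a.1 b.1 - g.1 (σ a).1 (σ b).1 := by ring
        rw [e2]
        exact this
      · simpa using hε.le
    · simp only [vl', hl]
      simpa using hε.le

theorem tr_bwd {f g : Met} (h : Apx (tr f) (tr g)) : rhoGH f g = 0 := by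
  rw [gh_zero]
  intro ε hε
  set κ : ℝ := min ε (1 / 2) with hκ
  have hκ0 : 0 < κ := lt_min hε (by norm_num)
  have hκ1 : κ ≤ ε := min_le_left _ _
  have hκ2 : κ < 1 := (min_le_right _ _).trans_lt (by norm_num)
  obtain ⟨π, hπ, hlab⟩ := h κ hκ0
  let P : List (ℕ × ℕ) → Prop := fun L => π (L.map Prod.fst) = L.map Prod.snd
  have hx : ∀ L, P L → ∀ x, ∃ y, P ((x, y) :: L) := by
    intro L hL x
    obtain ⟨y, hy⟩ := tree_cons hπ x (L.map Prod.fst)
    refine ⟨y, ?_⟩
    show π (x :: L.map Prod.fst) = y :: L.map Prod.snd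
    rw [hy, show π (L.map Prod.fst) = L.map Prod.snd from hL]
  have hy : ∀ L, P L → ∀ y, ∃ x, P ((x, y) :: L) := by
    intro L hL y
    obtain ⟨x, hx⟩ := tree_cons (tree_symm hπ) y (L.map Prod.snd)
    refine ⟨x, ?_⟩
    show π (x :: L.map Prod.fst) = y :: L.map Prod.snd
    rw [Equiv.symm_apply_eq] at hx
    rw [hx]
    congr 2
    rw [Equiv.eq_symm_apply]
    exact hL
  have h0 : P [] := by
    show π [] = []
    have := (hπ []).1
    simpa using this
  have hpad : ∀ (L : List (ℕ × ℕ)), P L → ∀ k, L.length ≤ k → ∃ L', P (L' ++ L) ∧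
      (L' ++ L).length = k := by
    intro L hL k hk
    induction k, hk using Nat.le_induction with
    | base => exact ⟨[], hL, rfl⟩
    | succ k hk ih =>
      obtain ⟨L', h1, h2⟩ := ih
      obtain ⟨y, hy⟩ := hx _ h1 0
      exact ⟨(0, y) :: L', hy, by simpa using h2⟩
  obtain ⟨R, -, hR1, hR2, hR3⟩ := bf P id id [] h0 hx hy
  refine ⟨fun a b => ∃ n m, (n, m) ∈ R ∧ (Nat.unpair n).1 = a ∧ (Nat.unpair m).1 = b,
    ⟨?_, ?_, ?_⟩, List.Forall₂.nil⟩
  · intro a
    obtain ⟨m, hm⟩ := hR1 (Nat.pair a 0)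
    exact ⟨_, _, m, hm, by simp, rfl⟩
  · intro b
    obtain ⟨n, hn⟩ := hR2 (Nat.pair b 0)
    exact ⟨_, n, _, hn, rfl, by simp⟩
  · rintro _ _ _ _ ⟨n, m, h1, rfl, rfl⟩ ⟨n', m', h2, rfl, rfl⟩
    obtain ⟨L, hL, h3, h4⟩ := hR3 _ h1 _ h2
    have h3' : (n, m) ∈ L.reverse := by simpa using h3
    have h4' : (n', m') ∈ L.reverse := by simpa using h4
    obtain ⟨i, hi, hi'⟩ := List.getElem_of_mem h3'
    obtain ⟨j, hj, hj'⟩ := List.getElem_of_mem h4'
    refine le_trans (kp_dec hκ2 fun r => ?_) hκ1
    obtain ⟨k, hk1, hk2⟩ := lv_inf (Sum.inl (i, j, r)) L.length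
    obtain ⟨L', h5, h6⟩ := hpad L hL k hk1
    have h7 := hlab ((L' ++ L).map Prod.fst)
    rw [show π ((L' ++ L).map Prod.fst) = (L' ++ L).map Prod.snd from h5] at h7
    change |vl' f (lv ((L' ++ L).map Prod.fst).length) (tu ((L' ++ L).map Prod.fst)) -
      vl' g (lv ((L' ++ L).map Prod.snd).length) (tu ((L' ++ L).map Prod.snd))| ≤ κ at h7
    rw [List.length_map, List.length_map, h6, hk2] at h7
    have l1 : (tu ((L' ++ L).map Prod.fst)).length = (L' ++ L).length := by
      simp only [tu, List.length_map, List.length_reverse]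
    have l2 : (tu ((L' ++ L).map Prod.snd)).length = (L' ++ L).length := by
      simp only [tu, List.length_map, List.length_reverse]
    simp only [vl', l1, l2] at h7
    have hi1 : i < L.length := by simpa using hi
    have hj1 : j < L.length := by simpa using hj
    have hc : i < (L' ++ L).length ∧ j < (L' ++ L).length := by
      rw [List.length_append]
      omega
    rw [if_pos hc, if_pos hc] at h7
    have key : ∀ (i : ℕ) (p : ℕ × ℕ) (hi : i < L.reverse.length), L.reverse[i] = p →
        (tu ((L' ++ L).map Prod.fst)).getD i 0 = (Nat.unpair p.1).1 ∧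
        (tu ((L' ++ L).map Prod.snd)).getD i 0 = (Nat.unpair p.2).1 := by
      intro i p hi hp
      have e1 : tu ((L' ++ L).map Prod.fst) =
          (L.reverse.map fun p => (Nat.unpair p.1).1) ++ tu (L'.map Prod.fst) := by
        simp [tu, List.map_append, List.reverse_append, Function.comp_def]
      have e2 : tu ((L' ++ L).map Prod.snd) =
          (L.reverse.map fun p => (Nat.unpair p.2).1) ++ tu (L'.map Prod.snd) := by
        simp [tu, List.map_append, List.reverse_append, Function.comp_def]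
      rw [e1, e2, List.getD_append _ _ _ _ (by simpa using hi),
        List.getD_append _ _ _ _ (by simpa using hi),
        List.getD_eq_getElem _ _ (by simpa using hi), List.getD_eq_getElem _ _ (by simpa using hi),
        List.getElem_map, List.getElem_map, hp]
      exact ⟨rfl, rfl⟩
    obtain ⟨g1, g2⟩ := key i _ hi hi'
    obtain ⟨g3, g4⟩ := key j _ hj hj'
    rw [g1, g2, g3, g4] at h7
    exact h7

end Pool.Agent.H655.TR
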