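import Pool.Agent.H655.TR.One

/-! From labelled trees to metrics. -/

namespace Pool.Agent.H655.TR

open Set Pool.Agent.H655.UR
open Pool.Agent.H655.GE (Rel Cor gh_zero)
open scoped ENNReal

/-- `s` and `t` are neighbours in the tree. -/
def adj (s t : List ℕ) : Prop := (s ≠ [] ∧ s.tail = t) ∨ (t ≠ [] ∧ t.tail = s)

theorem adj_symm (s t : List ℕ) : adj s t ↔ adj t s := Or.comm

open Classical in
/-- The distances coding a labelled tree. -/
noncomputable def ww (x : Lab) : Option (List ℕ) → Option (List ℕ) → ℝ
  | none, none => 0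
  | none, some s => if s = [] then 13 / 10 + (1 / 10) * (x s : ℝ) else 1 + (1 / 5) * (x s : ℝ)
  | some s, none => if s = [] then 13 / 10 + (1 / 10) * (x s : ℝ) else 1 + (1 / 5) * (x s : ℝ)
  | some s, some t => if s = t then 0 else if adj s t then 19 / 10 else 3 / 2

theorem ww_self (x : Lab) (p : Option (List ℕ)) : ww x p p = 0 := by
  rcases p with _ | s
  · rfl
  · simp [ww]

theorem ww_symm (x : Lab) (p q : Option (List ℕ)) : ww x p q = ww x q p := by
  rcases p with _ | s <;> rcases q with _ | t
  · rfl
  · rfl
  · rfl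
  · by_cases h : s = t
    · rw [h]
    · have h' : ¬ t = s := fun e => h e.symm
      simp only [ww, if_neg h, if_neg h']
      by_cases h2 : adj s t
      · rw [if_pos h2, if_pos ((adj_symm s t).1 h2)]
      · rw [if_neg h2, if_neg (fun e => h2 ((adj_symm s t).2 e))]

theorem ww_bd (x : Lab) {p q : Option (List ℕ)} (h : p ≠ q) : 1 ≤ ww x p q ∧ ww x p q ≤ 2 := by
  have key : ∀ s : List ℕ, 1 ≤ (if s = [] then 13 / 10 + (1 / 10) * (x s : ℝ)
      else 1 + (1 / 5) * (x s : ℝ)) ∧ (if s = [] then 13 / 10 + (1 / 10) * (x s : ℝ)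
      else 1 + (1 / 5) * (x s : ℝ)) ≤ 2 := by
    intro s
    have h1 := (x s).2.1
    have h2 := (x s).2.2
    split_ifs
    · constructor <;> linarith
    · constructor <;> linarith
  rcases p with _ | s <;> rcases q with _ | t
  · exact absurd rfl h
  · exact key t
  · exact key s
  · have h1 : s ≠ t := fun e => h (by rw [e])
    simp only [ww]
    rw [if_neg h1]
    split_ifs <;> norm_num

theorem ww_none (x : Lab) (q : Option (List ℕ)) : ww x none q ≤ 14 / 10 := by
  rcases q with _ | s
  · show (0 : ℝ) ≤ 14 / 10
    norm_num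
  · have h1 := (x s).2.1
    have h2 := (x s).2.2
    simp only [ww]
    split_ifs <;> linarith

theorem ww_le (x : Lab) (p q : Option (List ℕ)) : 0 ≤ ww x p q ∧ ww x p q ≤ 2 := by
  by_cases h : p = q
  · rw [h, ww_self]
    norm_num
  · have := ww_bd x h
    constructor <;> linarith

/-- Enumeration of the points. -/
noncomputable def ee : Option (List ℕ) ≃ ℕ := Denumerable.eqv (Option (List ℕ))

/-- The metric coding a labelled tree. -/
noncomputable def tm (x : Lab) : Met :=
  ⟨fun n m => ww x (ee.symm n) (ee.symm m), by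
    refine ⟨fun n m => ?_, fun n m => ww_symm _ _ _, fun n m k => ?_⟩
    · by_cases h : n = m
      · subst h
        simp [ww_self]
      · have h' : ee.symm n ≠ ee.symm m := fun e => h (ee.symm.injective e)
        have := ww_bd x h'
        constructor
        · intro h0
          linarith
        · intro h0
          exact absurd h0 h
    · by_cases h1 : ee.symm n = ee.symm m
      · rw [h1, ww_self]
        linarith
      · by_cases h2 : ee.symm m = ee.symm k
        · rw [h2, ww_self]
          linarith
        · have := ww_bd x h1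
          have := ww_bd x h2
          have := ww_le x (ee.symm n) (ee.symm k)
          linarith⟩

theorem tm_meas : Measurable tm := by
  have h1 : Measurable fun x : Lab => ((tm x).1 : ℕ → ℕ → ℝ) := by
    refine measurable_pi_lambda _ fun n => measurable_pi_lambda _ fun m => ?_
    show Measurable fun x : Lab => ww x (ee.symm n) (ee.symm m)
    generalize ee.symm n = p
    generalize ee.symm m = q
    have key : ∀ s : List ℕ, Measurable fun x : Lab => if s = [] then
        13 / 10 + (1 / 10) * (x s : ℝ) else 1 + (1 / 5) * (x s : ℝ) := by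
      intro s
      have hs : Measurable fun x : Lab => (x s : ℝ) :=
        measurable_subtype_coe.comp (measurable_pi_apply s)
      by_cases h : s = []
      · simp only [h, if_true] at hs ⊢
        exact (hs.const_mul _).const_add _
      · simp only [h, if_false]
        exact (hs.const_mul _).const_add _
    rcases p with _ | s <;> rcases q with _ | t
    · exact measurable_const
    · exact key t
    · exact key s
    · exact measurable_const
  have h2 : @Measurable Lab {f : ℕ → ℕ → ℝ // IsMet f} _ _ (fun x => tm x) := h1.subtype_mk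
  have h3 : (Subtype.instMeasurableSpace : MeasurableSpace {f : ℕ → ℕ → ℝ // IsMet f}) =
      borel {f : ℕ → ℕ → ℝ // IsMet f} := BorelSpace.measurable_eq
  intro S hS
  have hS' : @MeasurableSet {f : ℕ → ℕ → ℝ // IsMet f} Subtype.instMeasurableSpace S :=
    h3 ▸ hS
  exact h2 hS'

theorem tree_nil {π : Equiv.Perm (List ℕ)} (h : TreeAut π) (s : List ℕ) : π s = [] ↔ s = [] := by
  rw [← List.length_eq_zero_iff, ← List.length_eq_zero_iff, (h s).1]

theorem tree_adj {π : Equiv.Perm (List ℕ)} (h : TreeAut π) (s t : List ℕ) :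
    adj (π s) (π t) ↔ adj s t := by
  unfold adj
  rw [Ne, Ne, tree_nil h, tree_nil h, (h s).2, (h t).2, π.injective.eq_iff, π.injective.eq_iff]

theorem tm_fwd {x y : Lab} (h : Apx x y) : rhoGH (tm x) (tm y) = 0 := by
  rw [gh_zero]
  intro ε hε
  obtain ⟨π, hπ, hl⟩ := h ε hε
  refine ⟨fun n m => ee.symm m = Option.map π (ee.symm n), ⟨?_, ?_, ?_⟩, List.Forall₂.nil⟩
  · intro n
    exact ⟨ee (Option.map π (ee.symm n)), Equiv.symm_apply_apply _ _⟩
  · intro m
    refine ⟨ee (Option.map π.symm (ee.symm m)), ?_⟩
    show ee.symm m = Option.map π (ee.symm (ee (Option.map π.symm (ee.symm m))))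
    rw [Equiv.symm_apply_apply]
    rcases ee.symm m with _ | s
    · rfl
    · simp
  · intro n m n' m' h1 h2
    show |ww x (ee.symm n) (ee.symm n') - ww y (ee.symm m) (ee.symm m')| ≤ ε
    rw [h1, h2]
    have key : ∀ s : List ℕ, |(if s = [] then 13 / 10 + (1 / 10) * (x s : ℝ)
        else 1 + (1 / 5) * (x s : ℝ)) - (if π s = [] then 13 / 10 + (1 / 10) * (y (π s) : ℝ)
        else 1 + (1 / 5) * (y (π s) : ℝ))| ≤ ε := by
      intro s
      have hs := abs_le.1 (hl s)
      by_cases h : s = []
      · rw [if_pos h, if_pos ((tree_nil hπ s).2 h), abs_le]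
        constructor <;> linarith
      · rw [if_neg h, if_neg (fun e => h ((tree_nil hπ s).1 e)), abs_le]
        constructor <;> linarith
    rcases ee.symm n with _ | s <;> rcases ee.symm n' with _ | t
    · simp [ww, hε.le]
    · exact key t
    · exact key s
    · show |ww x (some s) (some t) - ww y (some (π s)) (some (π t))| ≤ ε
      simp only [ww]
      rw [tree_adj hπ]
      by_cases h : s = t
      · rw [if_pos h, if_pos (by rw [h])]
        simpa using hε.le
      · rw [if_neg h, if_neg (fun e => h (π.injective e))]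
        simpa using hε.le

theorem tm_bwd {x y : Lab} (h : rhoGH (tm x) (tm y) = 0) : Apx x y := by
  rw [gh_zero] at h
  intro ε hε
  set η : ℝ := min (ε / 10) (1 / 50) with hη
  have hη0 : 0 < η := lt_min (by linarith) (by norm_num)
  have hη1 : η ≤ ε / 10 := min_le_left _ _
  have hη2 : η ≤ 1 / 50 := min_le_right _ _
  obtain ⟨R0, ⟨r1, r2, r3⟩, -⟩ := h η hη0
  obtain ⟨R, hR⟩ : ∃ R : Option (List ℕ) → Option (List ℕ) → Prop,
      ∀ p q, R p q ↔ R0 (ee p) (ee q) := ⟨fun p q => R0 (ee p) (ee q), fun _ _ => Iff.rfl⟩
  have t1 : ∀ p, ∃ q, R p q := by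
    intro p
    obtain ⟨m, hm⟩ := r1 (ee p)
    exact ⟨ee.symm m, (hR _ _).2 (by rw [Equiv.apply_symm_apply]; exact hm)⟩
  have t2 : ∀ q, ∃ p, R p q := by
    intro q
    obtain ⟨n, hn⟩ := r2 (ee q)
    exact ⟨ee.symm n, (hR _ _).2 (by rw [Equiv.apply_symm_apply]; exact hn)⟩
  have t3 : ∀ p q p' q', R p q → R p' q' → |ww x p p' - ww y q q'| ≤ η := by
    intro p q p' q' h1 h2
    have := r3 _ _ _ _ ((hR _ _).1 h1) ((hR _ _).1 h2)
    change |ww x (ee.symm (ee p)) (ee.symm (ee p')) -
      ww y (ee.symm (ee q)) (ee.symm (ee q'))| ≤ η at this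
    simpa only [Equiv.symm_apply_apply] using this
  have u1 : ∀ p q q', R p q → R p q' → q = q' := by
    intro p q q' h1 h2
    by_contra hne
    have h3 := abs_le.1 (t3 _ _ _ _ h1 h2)
    rw [ww_self] at h3
    have := (ww_bd y hne).1
    linarith [h3.1]
  have u2 : ∀ p p' q, R p q → R p' q → p = p' := by
    intro p p' q h1 h2
    by_contra hne
    have h3 := abs_le.1 (t3 _ _ _ _ h1 h2)
    rw [ww_self] at h3
    have := (ww_bd x hne).1
    linarith [h3.2]
  have n0 : R none none := by
    obtain ⟨q, hq⟩ := t1 none
    rcases q with _ | t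
    · exact hq
    · exfalso
      obtain ⟨p, hp⟩ := t2 (some (0 :: t))
      have h3 := abs_le.1 (t3 _ _ _ _ hq hp)
      have h4 := ww_none x p
      have h5 : (3 / 2 : ℝ) ≤ ww y (some t) (some (0 :: t)) := by
        simp only [ww]
        rw [if_neg (by
          intro e
          have := congrArg List.length e
          simp at this)]
        split_ifs <;> norm_num
      linarith [h3.1]
  have s1 : ∀ s, ∃ t, R (some s) (some t) := by
    intro s
    obtain ⟨q, hq⟩ := t1 (some s)
    rcases q with _ | t
    · exact absurd (u2 _ _ _ n0 hq) (by simp)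
    · exact ⟨t, hq⟩
  have s2 : ∀ t, ∃ s, R (some s) (some t) := by
    intro t
    obtain ⟨p, hp⟩ := t2 (some t)
    rcases p with _ | s
    · exact absurd (u1 _ _ _ n0 hp) (by simp)
    · exact ⟨s, hp⟩
  choose a ha using s1
  choose b hb using s2
  let π : Equiv.Perm (List ℕ) :=
    ⟨a, b, fun s => by
      have := u2 _ _ _ (hb (a s)) (ha s)
      simpa using this, fun t => by
      have := u1 _ _ _ (ha (b t)) (hb t)
      simpa using this⟩
  have hπ : ∀ s, R (some s) (some (π s)) := ha
  have lab : ∀ s, |(if s = [] then 13 / 10 + (1 / 10) * (x s : ℝ)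
        else 1 + (1 / 5) * (x s : ℝ)) - (if π s = [] then 13 / 10 + (1 / 10) * (y (π s) : ℝ)
        else 1 + (1 / 5) * (y (π s) : ℝ))| ≤ η := by
    intro s
    exact t3 _ _ _ _ n0 (hπ s)
  have root : π [] = [] := by
    by_contra hne
    have h1 := abs_le.1 (lab [])
    rw [if_pos rfl, if_neg hne] at h1
    have h2 := (x []).2.1
    have h3 := (y (π [])).2.2
    linarith [h1.2]
  have nil : ∀ s, π s = [] ↔ s = [] := by
    intro s
    constructor
    · intro h1
      rw [← root] at h1
      exact π.injective h1
    · rintro rfl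
      exact root
  have hadj : ∀ s t, s ≠ t → adj s t → adj (π s) (π t) := by
    intro s t hne h1
    by_contra h2
    have h3 := abs_le.1 (t3 _ _ _ _ (hπ s) (hπ t))
    simp only [ww] at h3
    rw [if_neg hne, if_neg (fun e => hne (π.injective e)), if_pos h1, if_neg h2] at h3
    linarith [h3.2]
  refine ⟨π, ?_, ?_⟩
  · intro s
    induction s with
    | nil => rw [root]; simp [root]
    | cons n t ih =>
      have hne : n :: t ≠ t := by
        intro e
        have := congrArg List.length e
        simp at this
      rcases hadj (n :: t) t hne (Or.inl ⟨by simp, rfl⟩) with h1 | h1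
      · refine ⟨?_, h1.2⟩
        have h2 : (π (n :: t)).length = (π (n :: t)).tail.length + 1 := by
          rw [List.length_tail]
          have := List.length_pos_iff.2 h1.1
          omega
        rw [h2, h1.2, ih.1]
        rfl
      · exfalso
        rw [ih.2] at h1
        have h2 := congrArg List.length (π.injective h1.2)
        simp only [List.length_tail, List.length_cons] at h2
        omega
  · intro s
    have h1 := abs_le.1 (lab s)
    by_cases hs : s = []
    · rw [if_pos hs, if_pos ((nil s).2 hs)] at h1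
      rw [abs_le]
      constructor <;> linarith [h1.1, h1.2]
    · rw [if_neg hs, if_neg (fun e => hs ((nil s).1 e))] at h1
      rw [abs_le]
      constructor <;> linarith [h1.1, h1.2]

end Pool.Agent.H655.TR
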