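import Pool.Agent.H655.TR.Two

/-! The uniformly continuous version: the orbit pseudometric of the automorphism group of the tree
and the Gromov–Hausdorff distance. -/

namespace Pool.Agent.H655.TR

open Set Pool.Agent.H655.UR
open Pool.Agent.H655.GE (Rel Cor Lb' vl' vl'_mem vl'_meas lab' lab'_surj gh_zero)
open scoped ENNReal

/-- The orbit pseudometric of the automorphism group of the tree of finite sequences on the space
of labellings, for the sup distance. -/
noncomputable def rhoTree (x y : Lab) : ℝ≥0∞ :=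
  ⨅ (π : Equiv.Perm (List ℕ)) (_ : TreeAut π), ⨆ s, ENNReal.ofReal |(x s : ℝ) - y (π s)|

theorem tree_of_lt {x y : Lab} {δ : ℝ} (h : rhoTree x y < ENNReal.ofReal δ) :
    ∃ π, TreeAut π ∧ ∀ s, |(x s : ℝ) - y (π s)| ≤ δ := by
  unfold rhoTree at h
  obtain ⟨π, h1⟩ := iInf_lt_iff.1 h
  obtain ⟨hπ, h2⟩ := iInf_lt_iff.1 h1
  refine ⟨π, hπ, fun s => ?_⟩
  have h3 := (le_iSup (fun s => ENNReal.ofReal |(x s : ℝ) - y (π s)|) s).trans_lt h2
  exact ((ENNReal.ofReal_lt_ofReal_iff_of_nonneg (abs_nonneg _)).1 h3).le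

theorem tree_le {x y : Lab} {δ : ℝ} {π : Equiv.Perm (List ℕ)} (hπ : TreeAut π)
    (h : ∀ s, |(x s : ℝ) - y (π s)| ≤ δ) : rhoTree x y ≤ ENNReal.ofReal δ :=
  (iInf₂_le π hπ).trans (iSup_le fun s => ENNReal.ofReal_le_ofReal (h s))

theorem rel_of_lt {f g : Met} {δ : ℝ} (h : rhoGH f g < ENNReal.ofReal δ) :
    Rel f g [] [] (2 * δ) := by
  obtain ⟨R, h2, h3, h4⟩ := rel_of_gh h
  exact ⟨R, ⟨h2, h3, fun n m n' m' h5 h6 => h4 n m n' m' h5 h6⟩, List.Forall₂.nil⟩

theorem gh_le_of_rel {f g : Met} {δ : ℝ} (hδ : 0 < δ) (h : Rel f g [] [] (2 * δ)) :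
    rhoGH f g ≤ ENNReal.ofReal δ := by
  obtain ⟨R, h1, -⟩ := h
  obtain ⟨m0, hm0⟩ := h1.1 0
  haveI : Nonempty {p : ℕ × ℕ // R p.1 p.2} := ⟨⟨(0, m0), hm0⟩⟩
  refine gh_of_maps hδ (fun p : {p : ℕ × ℕ // R p.1 p.2} => p.1.1) (fun p => p.1.2) ?_ ?_ ?_
  · intro n
    obtain ⟨m, hm⟩ := h1.1 n
    exact ⟨⟨(n, m), hm⟩, rfl⟩
  · intro m
    obtain ⟨n, hn⟩ := h1.2.1 m
    exact ⟨⟨(n, m), hn⟩, rfl⟩
  · rintro ⟨p, hp⟩ ⟨q, hq⟩
    exact h1.2.2 _ _ _ _ hp hq

theorem tr_fwd' {f g : Met} {ε : ℝ} (hε : 0 < ε) (h : rhoGH f g < ENNReal.ofReal (ε / 2)) :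
    ∃ π, TreeAut π ∧ ∀ s, |(tr f s : ℝ) - tr g (π s)| ≤ ε := by
  obtain ⟨σ, hσ⟩ := perm_of_gh h
  have hσ' : ∀ a b : II, |f.1 a.1 b.1 - g.1 (σ a).1 (σ b).1| ≤ ε := fun a b =>
    (hσ a b).trans (by linarith)
  let τ : Equiv.Perm ℕ := (Nat.pairEquiv.symm.trans σ).trans Nat.pairEquiv
  have hτ : ∀ n, (Nat.unpair (τ n)) = σ (Nat.unpair n) := fun n => by
    show Nat.pairEquiv.symm (Nat.pairEquiv (σ (Nat.pairEquiv.symm n))) = _
    rw [Equiv.symm_apply_apply]
    rfl
  refine ⟨Equiv.listEquivOfEquiv τ, ?_, ?_⟩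
  · intro s
    refine ⟨?_, ?_⟩
    · show (List.map τ s).length = s.length
      simp
    · show (List.map τ s).tail = List.map τ s.tail
      simp
  · intro s
    show |vl' f (lv s.length) (tu s) - vl' g (lv (List.map τ s).length) (tu (List.map τ s))| ≤ ε
    rw [List.length_map]
    have hl : (tu (List.map τ s)).length = (tu s).length := by simp [tu]
    rcases lv s.length with c | n
    · simp only [vl', hl]
      split_ifs with hc
      · refine (kp_lip _ _).trans ?_
        refine (abs_abs_sub_abs_le_abs_sub _ _).trans ?_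
        have e : ∀ i, i < (tu s).length → ∃ a : II, (tu s).getD i 0 = a.1 ∧
            (tu (List.map τ s)).getD i 0 = (σ a).1 := by
          intro i hi
          have hi' : i < s.reverse.length := by simpa [tu] using hi
          refine ⟨Nat.unpair (s.reverse[i]), ?_, ?_⟩
          · unfold tu
            rw [List.getD_eq_getElem _ _ (by simpa using hi'), List.getElem_map]
          · unfold tu
            rw [List.getD_eq_getElem _ _ (by simpa using hi'), List.getElem_map, ← hτ]
            congr 3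
            simp [List.getElem_reverse]
        obtain ⟨a, ha, ha'⟩ := e c.1 hc.1
        obtain ⟨b, hb, hb'⟩ := e c.2.1 hc.2
        rw [ha, hb, ha', hb']
        have := hσ' a b
        have e2 : f.1 a.1 b.1 - (c.2.2 : ℝ) - (g.1 (σ a).1 (σ b).1 - (c.2.2 : ℝ)) =
          f.1 a.1 b.1 - g.1 (σ a).1 (σ b).1 := by ring
        rw [e2]
        exact this
      · simpa using hε.le
    · simp only [vl', hl]
      simpa using hε.le

theorem tr_bwd' {f g : Met} {κ : ℝ} (hκ2 : κ < 1) {π : Equiv.Perm (List ℕ)} (hπ : TreeAut π)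
    (hlab : ∀ s, |(tr f s : ℝ) - tr g (π s)| ≤ κ) : Rel f g [] [] κ := by
  let P : List (ℕ × ℕ) → Prop := fun L => π (L.map Prod.fst) = L.map Prod.snd
  have hx : ∀ L, P L → ∀ x, ∃ y, P ((x, y) :: L) := by
    intro L hL x
    obtain ⟨y, hy⟩ := tree_cons hπ x (L.map Prod.fst)
    refine ⟨y, ?_⟩
    show π (x :: L.map Prod.fst) = y :: L.map Prod.snd
    rw [hy, show π (L.map Prod.fst) = L.map Prod.snd from hL]
  have hy : ∀ L, P L → ∀ y, ∃ x, P ((x, y) :: L) := by
    intro L hL y
    obtain ⟨x, hx⟩ := tree_cons (tree_symm hπ) y (L.map Prod.snd)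
    refine ⟨x, ?_⟩
    show π (x :: L.map Prod.fst) = y :: L.map Prod.snd
    rw [Equiv.symm_apply_eq] at hx
    rw [hx]
    congr 2
    rw [Equiv.eq_symm_apply]
    exact hL
  have h0 : P [] := by
    show π [] = []
    have := (hπ []).1
    simpa using this
  have hpad : ∀ (L : List (ℕ × ℕ)), P L → ∀ k, L.length ≤ k → ∃ L', P (L' ++ L) ∧
      (L' ++ L).length = k := by
    intro L hL k hk
    induction k, hk using Nat.le_induction with
    | base => exact ⟨[], hL, rfl⟩
    | succ k hk ih =>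
      obtain ⟨L', h1, h2⟩ := ih
      obtain ⟨y, hy⟩ := hx _ h1 0
      exact ⟨(0, y) :: L', hy, by simpa using h2⟩
  obtain ⟨R, -, hR1, hR2, hR3⟩ := bf P id id [] h0 hx hy
  refine ⟨fun a b => ∃ n m, (n, m) ∈ R ∧ (Nat.unpair n).1 = a ∧ (Nat.unpair m).1 = b,
    ⟨?_, ?_, ?_⟩, List.Forall₂.nil⟩
  · intro a
    obtain ⟨m, hm⟩ := hR1 (Nat.pair a 0)
    exact ⟨_, _, m, hm, by simp, rfl⟩
  · intro b
    obtain ⟨n, hn⟩ := hR2 (Nat.pair b 0)
    exact ⟨_, n, _, hn, rfl, by simp⟩
  · rintro _ _ _ _ ⟨n, m, h1, rfl, rfl⟩ ⟨n', m', h2, rfl, rfl⟩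
    obtain ⟨L, hL, h3, h4⟩ := hR3 _ h1 _ h2
    have h3' : (n, m) ∈ L.reverse := by simpa using h3
    have h4' : (n', m') ∈ L.reverse := by simpa using h4
    obtain ⟨i, hi, hi'⟩ := List.getElem_of_mem h3'
    obtain ⟨j, hj, hj'⟩ := List.getElem_of_mem h4'
    refine kp_dec hκ2 fun r => ?_
    obtain ⟨k, hk1, hk2⟩ := lv_inf (Sum.inl (i, j, r)) L.length
    obtain ⟨L', h5, h6⟩ := hpad L hL k hk1
    have h7 := hlab ((L' ++ L).map Prod.fst)
    rw [show π ((L' ++ L).map Prod.fst) = (L' ++ L).map Prod.snd from h5] at h7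
    change |vl' f (lv ((L' ++ L).map Prod.fst).length) (tu ((L' ++ L).map Prod.fst)) -
      vl' g (lv ((L' ++ L).map Prod.snd).length) (tu ((L' ++ L).map Prod.snd))| ≤ κ at h7
    rw [List.length_map, List.length_map, h6, hk2] at h7
    have l1 : (tu ((L' ++ L).map Prod.fst)).length = (L' ++ L).length := by
      simp only [tu, List.length_map, List.length_reverse]
    have l2 : (tu ((L' ++ L).map Prod.snd)).length = (L' ++ L).length := by
      simp only [tu, List.length_map, List.length_reverse]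
    simp only [vl', l1, l2] at h7
    have hi1 : i < L.length := by simpa using hi
    have hj1 : j < L.length := by simpa using hj
    have hc : i < (L' ++ L).length ∧ j < (L' ++ L).length := by
      rw [List.length_append]
      omega
    rw [if_pos hc, if_pos hc] at h7
    have key : ∀ (i : ℕ) (p : ℕ × ℕ) (hi : i < L.reverse.length), L.reverse[i] = p →
        (tu ((L' ++ L).map Prod.fst)).getD i 0 = (Nat.unpair p.1).1 ∧
        (tu ((L' ++ L).map Prod.snd)).getD i 0 = (Nat.unpair p.2).1 := by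
      intro i p hi hp
      have e1 : tu ((L' ++ L).map Prod.fst) =
          (L.reverse.map fun p => (Nat.unpair p.1).1) ++ tu (L'.map Prod.fst) := by
        simp [tu, List.map_append, List.reverse_append, Function.comp_def]
      have e2 : tu ((L' ++ L).map Prod.snd) =
          (L.reverse.map fun p => (Nat.unpair p.2).1) ++ tu (L'.map Prod.snd) := by
        simp [tu, List.map_append, List.reverse_append, Function.comp_def]
      rw [e1, e2, List.getD_append _ _ _ _ (by simpa using hi),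
        List.getD_append _ _ _ _ (by simpa using hi),
        List.getD_eq_getElem _ _ (by simpa using hi), List.getD_eq_getElem _ _ (by simpa using hi),
        List.getElem_map, List.getElem_map, hp]
      exact ⟨rfl, rfl⟩
    obtain ⟨g1, g2⟩ := key i _ hi hi'
    obtain ⟨g3, g4⟩ := key j _ hj hj'
    rw [g1, g2, g3, g4] at h7
    exact h7

theorem tm_fwd' {x y : Lab} {ε : ℝ} (hε : 0 < ε) {π : Equiv.Perm (List ℕ)} (hπ : TreeAut π)
    (hl : ∀ s, |(x s : ℝ) - y (π s)| ≤ ε) : Rel (tm x) (tm y) [] [] ε := by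
  refine ⟨fun n m => ee.symm m = Option.map π (ee.symm n), ⟨?_, ?_, ?_⟩, List.Forall₂.nil⟩
  · intro n
    exact ⟨ee (Option.map π (ee.symm n)), Equiv.symm_apply_apply _ _⟩
  · intro m
    refine ⟨ee (Option.map π.symm (ee.symm m)), ?_⟩
    show ee.symm m = Option.map π (ee.symm (ee (Option.map π.symm (ee.symm m))))
    rw [Equiv.symm_apply_apply]
    rcases ee.symm m with _ | s
    · rfl
    · simp
  · intro n m n' m' h1 h2
    show |ww x (ee.symm n) (ee.symm n') - ww y (ee.symm m) (ee.symm m')| ≤ ε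
    rw [h1, h2]
    have key : ∀ s : List ℕ, |(if s = [] then 13 / 10 + (1 / 10) * (x s : ℝ)
        else 1 + (1 / 5) * (x s : ℝ)) - (if π s = [] then 13 / 10 + (1 / 10) * (y (π s) : ℝ)
        else 1 + (1 / 5) * (y (π s) : ℝ))| ≤ ε := by
      intro s
      have hs := abs_le.1 (hl s)
      by_cases h : s = []
      · rw [if_pos h, if_pos ((tree_nil hπ s).2 h), abs_le]
        constructor <;> linarith
      · rw [if_neg h, if_neg (fun e => h ((tree_nil hπ s).1 e)), abs_le]
        constructor <;> linarith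
    rcases ee.symm n with _ | s <;> rcases ee.symm n' with _ | t
    · simp [ww, hε.le]
    · exact key t
    · exact key s
    · show |ww x (some s) (some t) - ww y (some (π s)) (some (π t))| ≤ ε
      simp only [ww]
      rw [tree_adj hπ]
      by_cases h : s = t
      · rw [if_pos h, if_pos (by rw [h])]
        simpa using hε.le
      · rw [if_neg h, if_neg (fun e => h (π.injective e))]
        simpa using hε.le

theorem tm_bwd' {x y : Lab} {η : ℝ} (hη2 : η ≤ 1 / 50) (h : Rel (tm x) (tm y) [] [] η) :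
    ∃ π, TreeAut π ∧ ∀ s, |(x s : ℝ) - y (π s)| ≤ 10 * η := by
  obtain ⟨R0, ⟨r1, r2, r3⟩, -⟩ := h
  obtain ⟨R, hR⟩ : ∃ R : Option (List ℕ) → Option (List ℕ) → Prop,
      ∀ p q, R p q ↔ R0 (ee p) (ee q) := ⟨fun p q => R0 (ee p) (ee q), fun _ _ => Iff.rfl⟩
  have t1 : ∀ p, ∃ q, R p q := by
    intro p
    obtain ⟨m, hm⟩ := r1 (ee p)
    exact ⟨ee.symm m, (hR _ _).2 (by rw [Equiv.apply_symm_apply]; exact hm)⟩
  have t2 : ∀ q, ∃ p, R p q := by
    intro q
    obtain ⟨n, hn⟩ := r2 (ee q)
    exact ⟨ee.symm n, (hR _ _).2 (by rw [Equiv.apply_symm_apply]; exact hn)⟩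
  have t3 : ∀ p q p' q', R p q → R p' q' → |ww x p p' - ww y q q'| ≤ η := by
    intro p q p' q' h1 h2
    have := r3 _ _ _ _ ((hR _ _).1 h1) ((hR _ _).1 h2)
    change |ww x (ee.symm (ee p)) (ee.symm (ee p')) -
      ww y (ee.symm (ee q)) (ee.symm (ee q'))| ≤ η at this
    simpa only [Equiv.symm_apply_apply] using this
  have u1 : ∀ p q q', R p q → R p q' → q = q' := by
    intro p q q' h1 h2
    by_contra hne
    have h3 := abs_le.1 (t3 _ _ _ _ h1 h2)
    rw [ww_self] at h3
    have := (ww_bd y hne).1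
    linarith [h3.1]
  have u2 : ∀ p p' q, R p q → R p' q → p = p' := by
    intro p p' q h1 h2
    by_contra hne
    have h3 := abs_le.1 (t3 _ _ _ _ h1 h2)
    rw [ww_self] at h3
    have := (ww_bd x hne).1
    linarith [h3.2]
  have n0 : R none none := by
    obtain ⟨q, hq⟩ := t1 none
    rcases q with _ | t
    · exact hq
    · exfalso
      obtain ⟨p, hp⟩ := t2 (some (0 :: t))
      have h3 := abs_le.1 (t3 _ _ _ _ hq hp)
      have h4 := ww_none x p
      have h5 : (3 / 2 : ℝ) ≤ ww y (some t) (some (0 :: t)) := by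
        simp only [ww]
        rw [if_neg (by
          intro e
          have := congrArg List.length e
          simp at this)]
        split_ifs <;> norm_num
      linarith [h3.1]
  have s1 : ∀ s, ∃ t, R (some s) (some t) := by
    intro s
    obtain ⟨q, hq⟩ := t1 (some s)
    rcases q with _ | t
    · exact absurd (u2 _ _ _ n0 hq) (by simp)
    · exact ⟨t, hq⟩
  have s2 : ∀ t, ∃ s, R (some s) (some t) := by
    intro t
    obtain ⟨p, hp⟩ := t2 (some t)
    rcases p with _ | s
    · exact absurd (u1 _ _ _ n0 hp) (by simp)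
    · exact ⟨s, hp⟩
  choose a ha using s1
  choose b hb using s2
  let π : Equiv.Perm (List ℕ) :=
    ⟨a, b, fun s => by
      have := u2 _ _ _ (hb (a s)) (ha s)
      simpa using this, fun t => by
      have := u1 _ _ _ (ha (b t)) (hb t)
      simpa using this⟩
  have hπ : ∀ s, R (some s) (some (π s)) := ha
  have lab : ∀ s, |(if s = [] then 13 / 10 + (1 / 10) * (x s : ℝ)
        else 1 + (1 / 5) * (x s : ℝ)) - (if π s = [] then 13 / 10 + (1 / 10) * (y (π s) : ℝ)
        else 1 + (1 / 5) * (y (π s) : ℝ))| ≤ η := by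
    intro s
    exact t3 _ _ _ _ n0 (hπ s)
  have root : π [] = [] := by
    by_contra hne
    have h1 := abs_le.1 (lab [])
    rw [if_pos rfl, if_neg hne] at h1
    have h2 := (x []).2.1
    have h3 := (y (π [])).2.2
    linarith [h1.2]
  have nil : ∀ s, π s = [] ↔ s = [] := by
    intro s
    constructor
    · intro h1
      rw [← root] at h1
      exact π.injective h1
    · rintro rfl
      exact root
  have hadj : ∀ s t, s ≠ t → adj s t → adj (π s) (π t) := by
    intro s t hne h1
    by_contra h2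
    have h3 := abs_le.1 (t3 _ _ _ _ (hπ s) (hπ t))
    simp only [ww] at h3
    rw [if_neg hne, if_neg (fun e => hne (π.injective e)), if_pos h1, if_neg h2] at h3
    linarith [h3.2]
  refine ⟨π, ?_, ?_⟩
  · intro s
    induction s with
    | nil => rw [root]; simp [root]
    | cons n t ih =>
      have hne : n :: t ≠ t := by
        intro e
        have := congrArg List.length e
        simp at this
      rcases hadj (n :: t) t hne (Or.inl ⟨by simp, rfl⟩) with h1 | h1
      · refine ⟨?_, h1.2⟩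
        have h2 : (π (n :: t)).length = (π (n :: t)).tail.length + 1 := by
          rw [List.length_tail]
          have := List.length_pos_iff.2 h1.1
          omega
        rw [h2, h1.2, ih.1]
        rfl
      · exfalso
        rw [ih.2] at h1
        have h2 := congrArg List.length (π.injective h1.2)
        simp only [List.length_tail, List.length_cons] at h2
        omega
  · intro s
    have h1 := abs_le.1 (lab s)
    by_cases hs : s = []
    · rw [if_pos hs, if_pos ((nil s).2 hs)] at h1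
      rw [abs_le]
      constructor <;> linarith [h1.1, h1.2]
    · rw [if_neg hs, if_neg (fun e => hs ((nil s).1 e))] at h1
      rw [abs_le]
      constructor <;> linarith [h1.1, h1.2]


theorem tree_ured : BURed (borel Met) inferInstance rhoGH rhoTree := by
  refine ⟨tr, tr_meas, fun ε hε => ?_⟩
  refine ⟨ε / 4, min ε (1 / 2), by linarith, lt_min hε (by norm_num), fun f g => ⟨fun h => ?_,
    fun h => ?_⟩⟩
  · obtain ⟨π, hπ, hl⟩ := tr_fwd' (ε := ε / 2) (by linarith)
      (lt_of_lt_of_le h (ENNReal.ofReal_le_ofReal (by linarith)))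
    exact (tree_le hπ hl).trans_lt ((ENNReal.ofReal_lt_ofReal_iff hε).2 (by linarith))
  · have m1 := min_le_left ε (1 / 2)
    have m2 := min_le_right ε (1 / 2)
    have m3 : 0 < min ε (1 / 2) := lt_min hε (by norm_num)
    obtain ⟨π, hπ, hl⟩ := tree_of_lt h
    have h1 := tr_bwd' (show min ε (1 / 2) < 1 by linarith) hπ hl
    have h2 := gh_le_of_rel (f := f) (g := g) (δ := min ε (1 / 2) / 2) (by linarith)
      (h1.mono (by linarith))
    exact h2.trans_lt ((ENNReal.ofReal_lt_ofReal_iff hε).2 (by linarith))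

theorem gh_ured : BURed inferInstance (borel Met) rhoTree rhoGH := by
  refine ⟨tm, tm_meas, fun ε hε => ?_⟩
  refine ⟨ε, min (ε / 40) (1 / 100), hε, lt_min (by linarith) (by norm_num),
    fun x y => ⟨fun h => ?_, fun h => ?_⟩⟩
  · obtain ⟨π, hπ, hl⟩ := tree_of_lt h
    have h1 := tm_fwd' hε hπ hl
    have h2 := gh_le_of_rel (f := tm x) (g := tm y) (δ := ε / 2) (by linarith)
      (h1.mono (by linarith))
    exact h2.trans_lt ((ENNReal.ofReal_lt_ofReal_iff hε).2 (by linarith))
  · have m1 := min_le_left (ε / 40) (1 / 100)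
    have m2 := min_le_right (ε / 40) (1 / 100)
    obtain ⟨π, hπ, hl⟩ := tm_bwd' (by linarith) (rel_of_lt h)
    refine (tree_le hπ hl).trans_lt ((ENNReal.ofReal_lt_ofReal_iff hε).2 ?_)
    linarith

/-- Uniformly continuous reductions reduce the zero relations. -/
theorem zero_of_bured {X Y : Type} {mX : MeasurableSpace X} {mY : MeasurableSpace Y}
    {ρX : X → X → ℝ≥0∞} {ρY : Y → Y → ℝ≥0∞} (h : BURed mX mY ρX ρY) :
    ∃ f : X → Y, @Measurable X Y mX mY f ∧ ∀ x y, ρX x y = 0 ↔ ρY (f x) (f y) = 0 := by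
  obtain ⟨f, hf, h1⟩ := h
  have small : ∀ a : ℝ≥0∞, (∀ ε : ℝ, 0 < ε → a < ENNReal.ofReal ε) → a = 0 := by
    intro a ha
    by_contra hne
    have h2 := ha 1 one_pos
    have hfin : a ≠ ⊤ := (h2.trans_le le_top).ne
    have hp : 0 < a.toReal := ENNReal.toReal_pos hne hfin
    have h3 := ha a.toReal hp
    rw [ENNReal.ofReal_toReal hfin] at h3
    exact lt_irrefl _ h3
  refine ⟨f, hf, fun x y => ⟨fun h0 => small _ fun ε hε => ?_, fun h0 => small _ fun ε hε => ?_⟩⟩
  · obtain ⟨δX, δY, h2, h3, h4⟩ := h1 ε hε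
    exact (h4 x y).1 (by rw [h0]; exact ENNReal.ofReal_pos.2 h2)
  · obtain ⟨δX, δY, h2, h3, h4⟩ := h1 ε hε
    exact (h4 x y).2 (by rw [h0]; exact ENNReal.ofReal_pos.2 h3)

end Pool.Agent.H655.TR
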